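import Pool.Agent.Helper49.OP.Base

/-!
# ML: even moments of the real part of a Dirichlet polynomial over primes, asymptotically

The proof of `mom_even` of Helper49/OP/MomEven (helper49) with the constants kept.
-/

set_option autoImplicit false
open MeasureTheory Set Filter Topology
open Pool.Agent.Helper49.TX (ak)
open Pool.Agent.Helper49.NRS (Inj inj_sum sum_ak_ge re_pow four_choose)
open Pool.Agent.Helper62.OP (DC)
open Pool.Agent.Helper49.OP

namespace Pool.Agent.Helper72.ML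

/-- the even moments, sharp -/
theorem mom_sharp : ∃ T₀ : ℝ, ∀ T Y : ℝ, T₀ ≤ T → 1 ≤ Y → ∀ (Q : Finset ℕ) (w : ℕ → ℂ) (m : ℕ) (x : ℝ),
    (∀ p ∈ Q, p.Prime ∧ (p : ℝ) ≤ Y) → Y ^ (m + 1) ≤ T ^ (1 / 16 : ℝ) → (∀ p ∈ Q, ‖w p‖ ^ 2 / p ≤ x) →
    4 * (m : ℝ) ^ 2 * x ≤ ∑ p ∈ Q, ‖w p‖ ^ 2 / p → 0 < ∑ p ∈ Q, ‖w p‖ ^ 2 / p →
    |(∫ t in Icc T (2 * T), (DC Q w t).re ^ (2 * m)) -
      T * (((2 * m).factorial / (2 ^ m * m.factorial) : ℝ) * ((∑ p ∈ Q, ‖w p‖ ^ 2 / p) / 2) ^ m)| ≤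
      ((m : ℝ) ^ 2 * x / (∑ p ∈ Q, ‖w p‖ ^ 2 / p) + T ^ (-(1 / 2) : ℝ)) *
        (T * (((2 * m).factorial / (2 ^ m * m.factorial) : ℝ) * ((∑ p ∈ Q, ‖w p‖ ^ 2 / p) / 2) ^ m)) := by
  have ev1 : ∀ᶠ T : ℝ in atTop, 2 ≤ T ^ (3 / 16 : ℝ) := (tendsto_rpow_atTop (by norm_num)).eventually_ge_atTop _
  obtain ⟨T0, hT0⟩ := eventually_atTop.mp (ev1.and (eventually_ge_atTop 1))
  refine ⟨T0, fun T L hT hL Q w m x hQ hLm1 hx h4x hV => ?_⟩
  obtain ⟨f1, f2⟩ := hT0 T hT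
  have hTp : 0 < T := by linarith
  have hLm : L ^ m ≤ T ^ (1 / 16 : ℝ) := (pow_le_pow_right₀ hL (by omega)).trans hLm1
  have hQ' : ∀ p ∈ Q, p.Prime := fun p hp => (hQ p hp).1
  obtain ⟨r, hr⟩ : ∃ r : ℕ → ℝ, r = fun p => ‖w p‖ := ⟨_, rfl⟩
  have hrp : ∀ p, ‖w p‖ = r p := fun p => by rw [hr]
  simp only [hrp] at hx h4x hV ⊢
  obtain ⟨V, hVd⟩ : ∃ V : ℝ, V = ∑ p ∈ Q, r p ^ 2 / (p:ℝ) := ⟨_, rfl⟩
  rw [← hVd] at h4x hV ⊢
  -- a prime in `Q`
  have hne : Q.Nonempty := by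
    by_contra h
    rw [Finset.not_nonempty_iff_eq_empty] at h
    rw [h, Finset.sum_empty] at hVd
    linarith
  obtain ⟨p₀, hp₀⟩ := hne
  have hL2 : 2 ≤ L := by
    have h1 : (2:ℝ) ≤ p₀ := by exact_mod_cast (hQ' _ hp₀).two_le
    linarith [(hQ _ hp₀).2]
  have hx0 : 0 ≤ x := le_trans (by positivity) (hx p₀ hp₀)
  -- the length
  obtain ⟨N, hN⟩ : ∃ N : ℕ, N = ⌊L ^ (2 * m)⌋₊ := ⟨_, rfl⟩
  have hN1 : 1 ≤ N := by
    rw [hN]
    exact Nat.one_le_floor_iff _ |>.2 (one_le_pow₀ hL)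
  have hNL : (N : ℝ) ≤ L ^ (2 * m) := by
    rw [hN]
    exact Nat.floor_le (by positivity)
  have hfN : ∀ j : ℕ, j ≤ 2 * m → ∀ f ∈ Fintype.piFinset (fun _ : Fin j => Q), ∏ i, f i ≤ N := by
    intro j hj f hf
    rw [Fintype.mem_piFinset] at hf
    rw [hN]
    apply Nat.le_floor
    push_cast
    calc ∏ i, (f i : ℝ) ≤ ∏ _i : Fin j, L := Finset.prod_le_prod (fun i _ => Nat.cast_nonneg _) fun i _ => (hQ _ (hf i)).2
      _ = L ^ j := by rw [Finset.prod_const, Finset.card_univ, Fintype.card_fin]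
      _ ≤ L ^ (2 * m) := pow_le_pow_right₀ hL hj
  have hPo : ∀ j : ℕ, j ≤ 2 * m → ∀ t, DC Q w t ^ j = PC N (aC Q w j) t := fun j hj t => DC_pow Q w j N (hfN j hj) t
  -- the sum of the absolute values
  obtain ⟨S, hS⟩ : ∃ S : ℝ, S = ∑ p ∈ Q, ‖w p‖ / √(p:ℝ) := ⟨_, rfl⟩
  have hS0 : 0 ≤ S := by rw [hS]; exact Finset.sum_nonneg fun p _ => by positivity
  have hcardQ : (Q.card : ℝ) ≤ L := by
    have h1 : Q ⊆ Finset.Icc 1 ⌊L⌋₊ := by
      intro p hp
      rw [Finset.mem_Icc]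
      exact ⟨(hQ' p hp).one_lt.le, Nat.le_floor (hQ p hp).2⟩
    have h2 := Finset.card_le_card h1
    rw [Nat.card_Icc, Nat.add_sub_cancel] at h2
    calc (Q.card : ℝ) ≤ ⌊L⌋₊ := by exact_mod_cast h2
      _ ≤ L := Nat.floor_le (by linarith)
  have hS2 : S ^ 2 ≤ L * V := by
    have h1 : S ^ 2 ≤ Q.card * ∑ p ∈ Q, (‖w p‖ / √(p:ℝ)) ^ 2 := by
      rw [hS]
      exact sq_sum_le_card_mul_sum_sq
    have h2 : ∑ p ∈ Q, (‖w p‖ / √(p:ℝ)) ^ 2 = V := by
      rw [hVd]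
      refine Finset.sum_congr rfl fun p _ => ?_
      rw [div_pow, Real.sq_sqrt (Nat.cast_nonneg _), hrp]
    rw [h2] at h1
    exact h1.trans (mul_le_mul_of_nonneg_right hcardQ hV.le)
  obtain ⟨R, hR⟩ : ∃ R : ℝ, R = T ^ (1 / 16 : ℝ) := ⟨_, rfl⟩
  have hR0 : 0 < R := by rw [hR]; positivity
  have hLm0 : 0 ≤ L ^ m := by positivity
  have herr : 2 * (N:ℝ) * S ^ (2 * m) ≤ 2 * R ^ 3 * V ^ m := by
    have h1 : S ^ (2 * m) ≤ (L * V) ^ m := by
      rw [pow_mul]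
      exact pow_le_pow_left₀ (sq_nonneg _) hS2 m
    have h2 : (N:ℝ) ≤ (L ^ m) ^ 2 := by
      refine hNL.trans (le_of_eq ?_)
      rw [← pow_mul]
      ring_nf
    rw [hR]
    calc 2 * (N:ℝ) * S ^ (2 * m) ≤ 2 * (L ^ m) ^ 2 * (L * V) ^ m := by gcongr
      _ = 2 * (L ^ m) ^ 3 * V ^ m := by rw [mul_pow]; ring
      _ ≤ 2 * (T ^ (1 / 16 : ℝ)) ^ 3 * V ^ m := by gcongr
  -- one term
  have hterm : ∀ j ∈ Finset.range (2 * m + 1),
      |(∫ t in T..(2 * T), (DC Q w t ^ j * (starRingEnd ℂ) (DC Q w t ^ (2 * m - j))).re) -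
        T * (∑ n ∈ Finset.range (N + 1), aC Q w j n * (starRingEnd ℂ) (aC Q w (2 * m - j) n) / n).re| ≤
        2 * N * S ^ (2 * m) := by
    intro j hj
    rw [Finset.mem_range] at hj
    have h1 := mean_mulC hN1 (aC_zero hQ' w j) (aC_zero hQ' w (2 * m - j)) T (2 * T)
    rw [show 2 * T - T = T by ring] at h1
    simp_rw [hPo j (by omega), hPo (2 * m - j) (by omega)]
    have hci : IntervalIntegrable (fun t => PC N (aC Q w j) t * (starRingEnd ℂ) (PC N (aC Q w (2 * m - j)) t))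
        volume T (2 * T) :=
      ((PC_cont _ _).mul (Complex.continuous_conj.comp (PC_cont _ _))).intervalIntegrable _ _
    have h6 : (∫ t in T..(2 * T), (PC N (aC Q w j) t * (starRingEnd ℂ) (PC N (aC Q w (2 * m - j)) t)).re) =
        (∫ t in T..(2 * T), PC N (aC Q w j) t * (starRingEnd ℂ) (PC N (aC Q w (2 * m - j)) t)).re :=
      Complex.reCLM.intervalIntegral_comp_comm hci
    have h7 : T * (∑ n ∈ Finset.range (N + 1), aC Q w j n * (starRingEnd ℂ) (aC Q w (2 * m - j) n) / n).re =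
        ((T : ℂ) * ∑ n ∈ Finset.range (N + 1), aC Q w j n * (starRingEnd ℂ) (aC Q w (2 * m - j) n) / n).re := by
      rw [Complex.re_ofReal_mul]
    rw [h6, h7, ← Complex.sub_re]
    refine (Complex.abs_re_le_norm _).trans (h1.trans ?_)
    have h2 := sum_norm_aC hQ' w j N (hfN j (by omega))
    have h3 := sum_norm_aC hQ' w (2 * m - j) N (hfN _ (by omega))
    rw [← hS] at h2 h3
    have h4 : 0 ≤ ∑ n ∈ Finset.range (N + 1), ‖aC Q w (2 * m - j) n‖ / √(n:ℝ) :=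
      Finset.sum_nonneg fun n _ => by positivity
    have h5 : S ^ (2 * m) = S ^ j * S ^ (2 * m - j) := by
      rw [← pow_add]
      congr 1
      omega
    rw [h5]
    apply mul_le_mul_of_nonneg_left _ (by positivity)
    exact mul_le_mul h2 h3 h4 (by positivity)
  -- the diagonal
  obtain ⟨D, hD⟩ : ∃ D : ℝ, D = ∑ n ∈ Finset.range (N + 1), ak Q r m n * ak Q r m n / n := ⟨_, rfl⟩
  have hdiag : ∀ j ∈ Finset.range (2 * m + 1), ((2 * m).choose j : ℝ) *
      (T * (∑ n ∈ Finset.range (N + 1), aC Q w j n * (starRingEnd ℂ) (aC Q w (2 * m - j) n) / n).re) =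
        if j = m then ((2 * m).choose m : ℝ) * (T * D) else 0 := by
    intro j hj
    rw [Finset.mem_range] at hj
    split_ifs with h
    · subst h
      rw [hD, show 2 * j - j = j by omega, Complex.re_sum]
      congr 2
      refine Finset.sum_congr rfl fun n _ => ?_
      rw [Complex.mul_conj, Complex.normSq_eq_norm_sq, norm_aC hQ', ← hr, ← Complex.ofReal_natCast,
        ← Complex.ofReal_div, Complex.ofReal_re, pow_two]
    · have h1 : ∑ n ∈ Finset.range (N + 1), aC Q w j n * (starRingEnd ℂ) (aC Q w (2 * m - j) n) / (n:ℂ) = 0 := by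
        apply Finset.sum_eq_zero
        intro n _
        rw [aC_disj hQ' w (by omega) n, zero_div]
      rw [h1, Complex.zero_re, mul_zero, mul_zero]
  have hmain : |(∫ t in Icc T (2 * T), (DC Q w t).re ^ (2 * m)) - (1 / 4) ^ m * (((2 * m).choose m : ℝ) * (T * D))| ≤
      2 * R ^ 3 * V ^ m := by
    have h1 : ∫ t in Icc T (2 * T), (DC Q w t).re ^ (2 * m) = (1 / 4) ^ m * ∑ j ∈ Finset.range (2 * m + 1),
        ((2 * m).choose j : ℝ) * ∫ t in T..(2 * T), (DC Q w t ^ j * (starRingEnd ℂ) (DC Q w t ^ (2 * m - j))).re := by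
      rw [integral_Icc_eq_integral_Ioc, ← intervalIntegral.integral_of_le (by linarith)]
      simp_rw [re_pow]
      rw [intervalIntegral.integral_const_mul, intervalIntegral.integral_finsetSum]
      · congr 1
        refine Finset.sum_congr rfl fun j _ => ?_
        rw [intervalIntegral.integral_const_mul]
      · intro j _
        apply Continuous.intervalIntegrable
        have hc := DC_cont Q w
        exact continuous_const.mul (Complex.continuous_re.comp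
          ((hc.pow _).mul (Complex.continuous_conj.comp (hc.pow _))))
    have h2 : (1 / 4 : ℝ) ^ m * (((2 * m).choose m : ℝ) * (T * D)) = (1 / 4) ^ m * ∑ j ∈ Finset.range (2 * m + 1),
        ((2 * m).choose j : ℝ) *
          (T * (∑ n ∈ Finset.range (N + 1), aC Q w j n * (starRingEnd ℂ) (aC Q w (2 * m - j) n) / n).re) := by
      rw [Finset.sum_congr rfl hdiag, Finset.sum_ite_eq', if_pos (Finset.mem_range.2 (by omega))]
    rw [h1, h2, ← mul_sub, ← Finset.sum_sub_distrib, abs_mul, abs_of_nonneg (by positivity : (0:ℝ) ≤ (1 / 4) ^ m)]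
    have h3 : |∑ j ∈ Finset.range (2 * m + 1), (((2 * m).choose j : ℝ) *
        (∫ t in T..(2 * T), (DC Q w t ^ j * (starRingEnd ℂ) (DC Q w t ^ (2 * m - j))).re) -
        ((2 * m).choose j : ℝ) *
          (T * (∑ n ∈ Finset.range (N + 1), aC Q w j n * (starRingEnd ℂ) (aC Q w (2 * m - j) n) / n).re))| ≤
        4 ^ m * (2 * N * S ^ (2 * m)) := by
      refine (Finset.abs_sum_le_sum_abs _ _).trans ?_
      have h4 : ∀ j ∈ Finset.range (2 * m + 1), |(((2 * m).choose j : ℝ) *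
          (∫ t in T..(2 * T), (DC Q w t ^ j * (starRingEnd ℂ) (DC Q w t ^ (2 * m - j))).re) -
          ((2 * m).choose j : ℝ) *
            (T * (∑ n ∈ Finset.range (N + 1), aC Q w j n * (starRingEnd ℂ) (aC Q w (2 * m - j) n) / n).re))| ≤
          ((2 * m).choose j : ℝ) * (2 * N * S ^ (2 * m)) := by
        intro j hj
        rw [← mul_sub, abs_mul, abs_of_nonneg (Nat.cast_nonneg _)]
        exact mul_le_mul_of_nonneg_left (hterm j hj) (Nat.cast_nonneg _)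
      refine (Finset.sum_le_sum h4).trans (le_of_eq ?_)
      rw [← Finset.sum_mul]
      congr 1
      have h5 := Nat.sum_range_choose (2 * m)
      have h6 : (2:ℝ) ^ (2 * m) = 4 ^ m := by rw [pow_mul]; norm_num
      rw [← h6]
      exact_mod_cast h5
    refine (mul_le_mul_of_nonneg_left h3 (by positivity)).trans ?_
    refine le_trans (le_of_eq ?_) herr
    rw [← mul_assoc, ← mul_pow]
    norm_num
  -- size of the diagonal
  have hDup : D ≤ m.factorial * V ^ m := by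
    have h1 := Pool.Agent.Helper49.TX.sum_ak Q hQ' r m N (hfN m (by omega))
    rw [← hVd] at h1
    rw [hD]
    simpa only [pow_two] using h1
  have hmx : (m:ℝ) * x ≤ V := by
    rcases Nat.eq_zero_or_pos m with h | h
    · subst h
      simp
      exact hV.le
    · have h1 : (1:ℝ) ≤ m := by exact_mod_cast h
      nlinarith [mul_nonneg (by linarith : (0:ℝ) ≤ m) hx0]
  have hDlo : (1 - (m : ℝ) ^ 2 * x / V) * (m.factorial * V ^ m) ≤ D := by
    have h1 := sum_ak_ge hQ' r m N (hfN m (by omega))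
    rw [← hD] at h1
    have h2 := inj_sum (Q := Q) (y := fun p => r p ^ 2 / (p:ℝ)) (fun p => by positivity) hx hx0 m (by rw [← hVd]; exact hmx)
    rw [← hVd] at h2
    have h3 : (1 - (m : ℝ) ^ 2 * x / V) * V ^ m ≤ (V - m * x) ^ m := by
      have e1 : V - m * x = V * (1 + -(m * x / V)) := by field_simp; ring
      have e2 : m * x / V ≤ 1 := by rw [div_le_one hV]; exact hmx
      have e3 : 0 ≤ m * x / V := by positivity
      have e4 := one_add_mul_le_pow (show (-2:ℝ) ≤ -(m * x / V) by linarith) m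
      have e5 : (m:ℝ) * (m * x / V) = (m : ℝ) ^ 2 * x / V := by
        rw [← mul_div_assoc]
        ring
      rw [e1, mul_pow, mul_comm]
      apply mul_le_mul_of_nonneg_left _ (by positivity)
      linarith
    calc (1 - (m : ℝ) ^ 2 * x / V) * (m.factorial * V ^ m) = m.factorial * ((1 - (m : ℝ) ^ 2 * x / V) * V ^ m) := by ring
      _ ≤ m.factorial * ∑ f ∈ Inj Q m, ∏ i, (r (f i) ^ 2 / (f i : ℝ)) := by
        apply mul_le_mul_of_nonneg_left _ (by positivity)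
        exact h3.trans h2
      _ ≤ D := h1
  -- the error is small
  obtain ⟨G, hG⟩ : ∃ G : ℝ, G = ((2 * m).factorial / (2 ^ m * m.factorial) : ℝ) * (V / 2) ^ m := ⟨_, rfl⟩
  have hG2 : G = (1 / 4) ^ m * ((2 * m).choose m : ℝ) * (m.factorial * V ^ m) := by rw [hG, four_choose]
  have hch : (1:ℝ) ≤ ((2 * m).choose m : ℝ) := by
    exact_mod_cast Nat.choose_pos (show m ≤ 2 * m by omega)
  have hfac : (1:ℝ) ≤ (m.factorial : ℝ) := by exact_mod_cast m.factorial_pos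
  have hVm : 0 < V ^ m := by positivity
  have hGlo : (1 / 4) ^ m * V ^ m ≤ G := by
    rw [hG2]
    calc (1 / 4 : ℝ) ^ m * V ^ m = (1 / 4) ^ m * 1 * (1 * V ^ m) := by ring
      _ ≤ _ := by gcongr
  have hG0 : 0 ≤ G := le_trans (by positivity) hGlo
  have hsmall : 2 * R ^ 3 * V ^ m ≤ T ^ (-(1 / 2) : ℝ) * (T * G) := by
    have h1 : (4:ℝ) ^ m ≤ R ^ 2 := by
      rw [hR]
      calc (4:ℝ) ^ m = (2 ^ m) ^ 2 := by rw [← pow_mul, mul_comm m 2, pow_mul]; norm_num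
        _ ≤ (L ^ m) ^ 2 := by gcongr
        _ ≤ _ := by gcongr
    have h2 : 2 * R ^ 5 ≤ T ^ (-(1 / 2) : ℝ) * T := by
      have e1 : R ^ 5 = T ^ (5 / 16 : ℝ) := by
        rw [hR, ← Real.rpow_natCast, ← Real.rpow_mul hTp.le]
        norm_num
      have e2 : T ^ (-(1 / 2) : ℝ) * T = T ^ (1 / 2 : ℝ) := by
        nth_rw 2 [← Real.rpow_one T]
        rw [← Real.rpow_add hTp]
        norm_num
      rw [e1, e2]
      calc 2 * T ^ (5 / 16 : ℝ) ≤ T ^ (3 / 16 : ℝ) * T ^ (5 / 16 : ℝ) := by gcongr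
        _ = T ^ (1 / 2 : ℝ) := by rw [← Real.rpow_add hTp]; norm_num
    have h3 : (1:ℝ) = (4:ℝ) ^ m * (1 / 4) ^ m := by rw [← mul_pow]; norm_num
    calc 2 * R ^ 3 * V ^ m = 2 * R ^ 3 * (4 ^ m * ((1 / 4) ^ m * V ^ m)) := by rw [← mul_assoc (4 ^ m), ← h3, one_mul]
      _ ≤ 2 * R ^ 3 * (R ^ 2 * G) := by gcongr
      _ = (2 * R ^ 5) * G := by ring
      _ ≤ (T ^ (-(1 / 2) : ℝ) * T) * G := mul_le_mul_of_nonneg_right h2 hG0
      _ = _ := by ring
  have hup : (1 / 4) ^ m * (((2 * m).choose m : ℝ) * (T * D)) ≤ T * G := by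
    rw [hG2]
    calc (1 / 4 : ℝ) ^ m * (((2 * m).choose m : ℝ) * (T * D)) ≤
        (1 / 4) ^ m * (((2 * m).choose m : ℝ) * (T * (m.factorial * V ^ m))) := by gcongr
      _ = _ := by ring
  have hlo : (1 - (m : ℝ) ^ 2 * x / V) * (T * G) ≤ (1 / 4) ^ m * (((2 * m).choose m : ℝ) * (T * D)) := by
    rw [hG2]
    calc (1 - (m : ℝ) ^ 2 * x / V) * (T * ((1 / 4) ^ m * ((2 * m).choose m : ℝ) * (m.factorial * V ^ m))) =
        (1 / 4) ^ m * (((2 * m).choose m : ℝ) * (T * ((1 - (m : ℝ) ^ 2 * x / V) * (m.factorial * V ^ m)))) := by ring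
      _ ≤ _ := by gcongr
  rw [abs_le] at hmain
  have hTG : 0 ≤ T * G := mul_nonneg hTp.le hG0
  have hxV : 0 ≤ (m : ℝ) ^ 2 * x / V := by positivity
  rw [← hG, abs_le]
  have k1 : ((m : ℝ) ^ 2 * x / V + T ^ (-(1 / 2) : ℝ)) * (T * G) =
      (m : ℝ) ^ 2 * x / V * (T * G) + T ^ (-(1 / 2) : ℝ) * (T * G) := by ring
  have k2 : (1 - (m : ℝ) ^ 2 * x / V) * (T * G) = T * G - (m : ℝ) ^ 2 * x / V * (T * G) := by ring
  have k3 := mul_nonneg hxV hTG
  rw [k2] at hlo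
  rw [k1]
  constructor
  · linarith [hmain.1]
  · linarith [hmain.2]

end Pool.Agent.Helper72.ML
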